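import Mathlib

/-!
OLB, part ID: linear disjointness.
-/

set_option autoImplicit false

namespace Pool.Agent.Helper73.OLB

open Finset

theorem lin_disj {R : Type} [CommRing R] [Algebra ℂ R] {K₀ K : Type} [Field K₀] [Algebra ℂ K₀]
    [Field K] [Algebra ℂ K] [Algebra K₀ K]
    [IsScalarTower ℂ K₀ K] (𝔴 : Set (Derivation ℂ K₀ K₀)) {z : R →ₐ[ℂ] K}
    (hz : Function.Injective z)
    (hext : ∀ D ∈ 𝔴, ∃ D' : Derivation ℂ K K,
      (∀ c : K₀, D' (algebraMap K₀ K c) = algebraMap K₀ K (D c)) ∧ ∀ r, D' (z r) = 0)
    (hconst : ∀ c : K₀, (∀ D ∈ 𝔴, D c = 0) → c ∈ Set.range (algebraMap ℂ K₀)) {m : ℕ}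
    {r : Fin m → R} (hr : LinearIndependent ℂ r) : LinearIndependent K₀ fun i => z (r i) := by
  classical
  have key : ∀ (s : Finset (Fin m)) (c : Fin m → K₀),
      ∑ i ∈ s, algebraMap K₀ K (c i) * z (r i) = 0 → ∀ i ∈ s, c i = 0 := by
    intro s
    induction s using Finset.induction_on with
    | empty => intro c _ i hi; simp at hi
    | insert j t hj ih =>
      intro c hc
      by_cases hcj : c j = 0
      · rw [sum_insert hj, hcj, map_zero, zero_mul, zero_add] at hc
        intro i hi
        rcases mem_insert.1 hi with rfl | hi
        · exact hcj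
        · exact ih c hc i hi
      · exfalso
        have hc' : ∑ i ∈ insert j t, algebraMap K₀ K (c i / c j) * z (r i) = 0 := by
          have h1 : ∑ i ∈ insert j t, algebraMap K₀ K (c i / c j) * z (r i) =
              algebraMap K₀ K (c j)⁻¹ * ∑ i ∈ insert j t, algebraMap K₀ K (c i) * z (r i) := by
            rw [mul_sum]
            refine sum_congr rfl fun i _ => ?_
            rw [div_eq_mul_inv, map_mul]
            ring
          rw [h1, hc, mul_zero]
        have hD : ∀ i ∈ insert j t, ∀ D ∈ 𝔴, D (c i / c j) = 0 := by
          intro i hi D hDm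
          rcases mem_insert.1 hi with rfl | hi
          · rw [div_self hcj]; exact D.map_one_eq_zero
          · obtain ⟨D', hD1, hD2⟩ := hext D hDm
            have h2 := congrArg D' hc'
            rw [map_zero, map_sum] at h2
            have h3 : ∀ i ∈ insert j t, D' (algebraMap K₀ K (c i / c j) * z (r i)) =
                algebraMap K₀ K (D (c i / c j)) * z (r i) := by
              intro i _
              rw [Derivation.leibniz, hD1, hD2]
              simp only [smul_eq_mul, mul_zero, zero_add]
              ring
            rw [sum_congr rfl h3, sum_insert hj, div_self hcj, D.map_one_eq_zero, map_zero,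
              zero_mul, zero_add] at h2
            exact ih (fun i => D (c i / c j)) h2 i hi
        have hγ : ∀ i ∈ insert j t, ∃ g : ℂ, algebraMap ℂ K₀ g = c i / c j := fun i hi =>
          hconst _ (hD i hi)
        choose! g hg using hγ
        have h4 : z (∑ i ∈ insert j t, g i • r i) = 0 := by
          rw [map_sum, ← hc']
          refine sum_congr rfl fun i hi => ?_
          rw [map_smul, ← hg i hi, ← IsScalarTower.algebraMap_apply, Algebra.smul_def]
        have h5 : ∑ i ∈ insert j t, g i • r i = 0 := hz (by rw [h4, map_zero])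
        have h6 := (linearIndependent_iff'.1 hr) (insert j t) g h5 j (mem_insert_self j t)
        have h7 := hg j (mem_insert_self j t)
        rw [h6, map_zero, div_self hcj] at h7
        exact zero_ne_one h7
  rw [Fintype.linearIndependent_iff]
  intro c hc i
  apply key univ c _ i (mem_univ i)
  rw [← hc]
  exact sum_congr rfl fun i _ => (Algebra.smul_def _ _).symm

end Pool.Agent.Helper73.OLB

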